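import Pool.Agent.helper3.T6R.Spec

/-! Row t6r:RFU (MP_16912e_nt): existence of the structure `Full` with prescribed signs -/

set_option autoImplicit false

namespace Pool.Agent.T6R

open Finset NumberField Pool.Agent.helper3.FT Pool.Agent.helper47.RA Pool.Agent.T5 Pool.Agent.T6
open scoped nonZeroDivisors

theorem RFU_Y_neg {K : Type} [Field K] [NumberField K] (Q : QF K) (x : 𝓞 K) : Q.Y (-x) = - Q.Y x := by
  have h0 : Q.Y ((0 : 𝓞 K)) = 0 := by
    have h := Q.Y_add (0 : 𝓞 K) 0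
    rw [add_zero] at h
    omega
  have h := Q.Y_sub (0 : 𝓞 K) x
  rw [zero_sub, h0] at h
  omega

theorem RFU_sign {K : Type} [Field K] [NumberField K] (Q : QF K) (x : 𝓞 K) :
    ∃ y : 𝓞 K, (y = x ∨ y = -x) ∧ 0 ≤ Q.Y y := by
  rcases le_total 0 (Q.Y x) with h | h
  · exact ⟨x, Or.inl rfl, h⟩
  · refine ⟨-x, Or.inr rfl, ?_⟩
    rw [RFU_Y_neg]
    omega

theorem RFU_span {K : Type} [Field K] [NumberField K] {x y : 𝓞 K} (h : y = x ∨ y = -x) :
    Ideal.span {y} = Ideal.span {x} := by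
  rcases h with rfl | rfl
  · rfl
  · exact Ideal.span_singleton_neg _

theorem RFU : RFU_stmt := by
  intro K _ _ Q a θ α hpa ha hθ hα0 hα hc
  obtain ⟨γ, hγθ⟩ := Pool.Agent.helper26.T5.LGA_ex a θ hθ α hα
  have hZ0 : Ideal.absNorm a ≠ 0 := by rwa [Ne, Ideal.absNorm_eq_zero_iff]
  have hle : Ideal.span {α} ≤ a ^ 2 := (Ideal.span_singleton_le_iff_mem _).2 hα
  obtain ⟨L, hL⟩ := Ideal.dvd_iff_le.2 hle
  have hpL : Prim L := by
    intro q hq hdvd
    apply hc q hq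
    obtain ⟨M, hM⟩ := hdvd
    refine ⟨M, ?_⟩
    rw [hL, hM]
    ring
  have hZK : ((Ideal.absNorm a : ℕ) : 𝓞 K) ≠ 0 := by exact_mod_cast hZ0
  have hγ0 : γ ≠ 0 := by
    intro h
    rw [h, zero_mul] at hγθ
    rcases mul_eq_zero.1 hγθ.symm with h1 | h1
    · exact hZK h1
    · exact hα0 ((pow_eq_zero_iff (by norm_num)).1 h1)
  have hγi : Ideal.span {γ} = Q.bar a * L ^ 2 := by
    have h1 : Ideal.span {γ} * a ^ 5 = (Q.bar a * L ^ 2) * a ^ 5 := by
      calc Ideal.span {γ} * a ^ 5 = Ideal.span {γ * θ} := by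
            rw [← hθ, Ideal.span_singleton_mul_span_singleton]
        _ = Ideal.span {((Ideal.absNorm a : ℕ) : 𝓞 K)} * Ideal.span {α} ^ 2 := by
            rw [hγθ, Ideal.span_singleton_pow, Ideal.span_singleton_mul_span_singleton]
        _ = (a * Q.bar a) * (a ^ 2 * L) ^ 2 := by rw [Q.mul_bar, hL]
        _ = (Q.bar a * L ^ 2) * a ^ 5 := by ring
    exact mul_right_cancel₀ (pow_ne_zero 5 (by rwa [Ideal.zero_eq_bot])) h1
  obtain ⟨α', hα', hYα⟩ := RFU_sign Q α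
  obtain ⟨γ', hγ', hYγ⟩ := RFU_sign Q γ
  have hα'0 : α' ≠ 0 := by
    rcases hα' with rfl | rfl
    · exact hα0
    · exact neg_ne_zero.2 hα0
  have hγ'0 : γ' ≠ 0 := by
    rcases hγ' with rfl | rfl
    · exact hγ0
    · exact neg_ne_zero.2 hγ0
  obtain ⟨F, hFa, hFL, hFβ, hFγ⟩ := exists_full_of Q a L α' γ' hα'0 hγ'0
    (by rw [RFU_span hα', hL]) (by rw [RFU_span hγ', hγi]) hpa hpL
  refine ⟨F, hFa, by rw [hFβ]; exact hα', ?_, by rw [hFβ]; exact hYα, by rw [hFγ]; exact hYγ⟩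
  have e3 := F.e3
  have eγ := F.nγ
  rw [hFβ, hFγ] at e3
  rw [hFγ] at eγ
  have hsq : α' ^ 2 = α ^ 2 := by
    rcases hα' with rfl | rfl
    · rfl
    · exact neg_sq _
  have hΛK : ((F.Λ : ℤ) : 𝓞 K) ^ 2 ≠ 0 := pow_ne_zero 2 (by exact_mod_cast F.hΛ)
  have hmain : γ' * F.α = (F.Z : 𝓞 K) * α ^ 2 := by
    apply mul_left_cancel₀ hΛK
    rw [← hsq]
    linear_combination (-γ') * e3 + α' ^ 2 * eγ
  have hZc : ((F.Z : ℤ) : 𝓞 K) = ((Ideal.absNorm a : ℕ) : 𝓞 K) ∨
      ((F.Z : ℤ) : 𝓞 K) = -((Ideal.absNorm a : ℕ) : 𝓞 K) := by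
    have h := F.na
    rw [hFa] at h
    rcases abs_choice F.Z with h1 | h1
    · left
      rw [h1] at h
      rw [← h]
      push_cast
      rfl
    · right
      rw [h1] at h
      have h2 : F.Z = -(Ideal.absNorm a : ℤ) := by omega
      rw [h2]
      push_cast
      rfl
  have hmain2 : γ * F.α = (Ideal.absNorm a : 𝓞 K) * α ^ 2 ∨
      γ * F.α = -((Ideal.absNorm a : 𝓞 K) * α ^ 2) := by
    rcases hγ' with rfl | rfl
    · rcases hZc with h | h
      · left
        rw [hmain, h]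
      · right
        rw [hmain, h]
        ring
    · rcases hZc with h | h
      · right
        rw [h] at hmain
        linear_combination -hmain
      · left
        rw [h] at hmain
        linear_combination -hmain
  rcases hmain2 with h | h
  · left
    apply mul_left_cancel₀ hγ0
    rw [h, hγθ]
  · right
    apply mul_left_cancel₀ hγ0
    rw [h, ← hγθ]
    ring

end Pool.Agent.T6R
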